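import Pool.Agent.Helper39.Uct.Goals3

/-!
MP_d97caa_an, packet MAT: the homogeneous matrices of degree zero.
-/

set_option autoImplicit false

open scoped ComplexOrder

namespace Pool.Agent.Helper41.Uct2

open Pool.Agent.Helper39.Uct Pool.Agent.Helper39.Uct.Fib Pool.Agent.Helper10.Uct

section

variable {Q : Type} [Group Q] {B E : Type} [NonUnitalCStarAlgebra B] [NonUnitalCStarAlgebra E]

/-- generators of the fibre over `s` -/
def SS (G : Fib Q B) (g : Q) (e : ℤ → ℤ → B →ₗ[ℂ] E) (s : Q) : Set E :=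
  {x | ∃ i j : ℤ, ∃ b ∈ G.fib (g ^ i * s * g ^ (-j)), x = e i j b}

/-- the fibre over `s` -/
noncomputable def FF (G : Fib Q B) (g : Q) (e : ℤ → ℤ → B →ₗ[ℂ] E) (s : Q) : Submodule ℂ E :=
  (Submodule.span ℂ (SS G g e s)).topologicalClosure

theorem FF_closed (G : Fib Q B) (g : Q) (e : ℤ → ℤ → B →ₗ[ℂ] E) (s : Q) :
    IsClosed (FF G g e s : Set E) := Submodule.isClosed_topologicalClosure _

theorem mem_FF {G : Fib Q B} {g : Q} {e : ℤ → ℤ → B →ₗ[ℂ] E} {s : Q} {x : E}
    (h : x ∈ SS G g e s) : x ∈ FF G g e s :=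
  Submodule.le_topologicalClosure _ (Submodule.subset_span h)

theorem FF_mul {G : Fib Q B} (g : Q) {e : ℤ → ℤ → B →ₗ[ℂ] E} (he : MatSys e) (s t : Q) :
    ∀ x ∈ FF G g e s, ∀ y ∈ FF G g e t, x * y ∈ FF G g e (s * t) := by
  apply closure_mul_mem _ _ _ (FF_closed G g e _)
  rintro x ⟨i, j, b, hb, rfl⟩ y ⟨k, l, c, hc, rfl⟩
  by_cases hjk : j = k
  · subst hjk
    rw [he.mul]
    apply mem_FF
    refine ⟨i, l, b * c, ?_, rfl⟩
    have h := G.mul_mem _ _ b c hb hc
    have e1 : g ^ i * s * g ^ (-j) * (g ^ j * t * g ^ (-l)) = g ^ i * (s * t) * g ^ (-l) := by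
      group
    rwa [e1] at h
  · rw [he.mul0 _ _ _ _ _ _ hjk]
    exact Submodule.zero_mem _

theorem FF_star {G : Fib Q B} (g : Q) {e : ℤ → ℤ → B →ₗ[ℂ] E} (he : MatSys e) (s : Q) :
    ∀ x ∈ FF G g e s, star x ∈ FF G g e s⁻¹ := by
  apply closure_star_mem
  rintro x ⟨i, j, b, hb, rfl⟩
  rw [he.star]
  refine ⟨j, i, star b, ?_, rfl⟩
  have h := G.star_mem _ b hb
  have e1 : (g ^ i * s * g ^ (-j))⁻¹ = g ^ j * s⁻¹ * g ^ (-i) := by group
  rwa [e1] at h

/-- The diagonal part. -/
theorem corner_mem {G : Fib Q B} (g : Q) {e : ℤ → ℤ → B →ₗ[ℂ] E} (he : MatSys e) (i : ℤ)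
    {c : B} (hc : c ∈ G.fib 1) :
    ∀ x ∈ FF G g e 1, e i i c * x * e i i c ∈
      (Submodule.span ℂ {x | ∃ d ∈ G.fib 1, x = e i i d}).topologicalClosure := by
  have hcl : IsClosed (((Submodule.span ℂ {x | ∃ d ∈ G.fib 1, x = e i i d}).topologicalClosure :
      Submodule ℂ E) : Set E) := Submodule.isClosed_topologicalClosure _
  let L : E →ₗ[ℂ] E := (LinearMap.mulRight ℂ (e i i c)).comp (LinearMap.mulLeft ℂ (e i i c))
  have hL : Continuous L := (continuous_mul_const _).comp (continuous_const_mul _)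
  apply closure_map_mem _ _ hcl L hL
  rintro x ⟨k, l, b, hb, rfl⟩
  show e i i c * e k l b * e i i c ∈ _
  by_cases hik : i = k
  · subst hik
    by_cases hil : l = i
    · subst hil
      rw [he.mul, he.mul]
      apply Submodule.le_topologicalClosure _ (Submodule.subset_span _)
      refine ⟨c * b * c, ?_, rfl⟩
      have h1 : g ^ l * 1 * g ^ (-l) = 1 := by group
      rw [h1] at hb
      have h2 := G.mul_mem _ _ _ _ (G.mul_mem _ _ _ _ hc hb) hc
      simpa using h2
    · rw [he.mul, he.mul0 _ _ _ _ _ _ hil]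
      exact Submodule.zero_mem _
  · rw [he.mul0 _ _ _ _ _ _ hik, zero_mul]
    exact Submodule.zero_mem _

theorem corner_comm {G : Fib Q B} (hG : G.Comm) {e : ℤ → ℤ → B →ₗ[ℂ] E} (he : MatSys e) (i : ℤ) :
    ∀ x ∈ (Submodule.span ℂ {x | ∃ d ∈ G.fib 1, x = e i i d}).topologicalClosure,
      ∀ y ∈ (Submodule.span ℂ {x | ∃ d ∈ G.fib 1, x = e i i d}).topologicalClosure,
        x * y = y * x := by
  have h1 : ∀ y ∈ {x | ∃ d ∈ G.fib 1, x = e i i d},
      ∀ x ∈ (Submodule.span ℂ {x | ∃ d ∈ G.fib 1, x = e i i d}).topologicalClosure,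
        x * y = y * x := by
    rintro y ⟨d, hd, rfl⟩
    let L : E →ₗ[ℂ] E := LinearMap.mulRight ℂ (e i i d) - LinearMap.mulLeft ℂ (e i i d)
    have hL : Continuous L := (continuous_mul_const _).sub (continuous_const_mul _)
    have h2 := closure_map_mem {x | ∃ d ∈ G.fib 1, x = e i i d} (⊥ : Submodule ℂ E)
      (by simp) L hL (by
        rintro x ⟨d', hd', rfl⟩
        show e i i d' * e i i d - e i i d * e i i d' ∈ (⊥ : Submodule ℂ E)
        rw [he.mul, he.mul, hG _ hd' _ hd, sub_self]
        exact Submodule.zero_mem _)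
    intro x hx
    have h3 := h2 x hx
    have h4 : x * e i i d - e i i d * x = 0 := by
      have : L x = x * e i i d - e i i d * x := rfl
      rw [← this]
      exact (Submodule.mem_bot ℂ).1 h3
    exact sub_eq_zero.1 h4
  intro x hx
  let L : E →ₗ[ℂ] E := LinearMap.mulLeft ℂ x - LinearMap.mulRight ℂ x
  have hL : Continuous L := (continuous_const_mul _).sub (continuous_mul_const _)
  have h2 := closure_map_mem {x | ∃ d ∈ G.fib 1, x = e i i d} (⊥ : Submodule ℂ E)
    (by simp) L hL (by
      intro y hy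
      show x * y - y * x ∈ (⊥ : Submodule ℂ E)
      rw [h1 y hy x hx, sub_self]
      exact Submodule.zero_mem _)
  intro y hy
  have h3 := h2 y hy
  have h4 : x * y - y * x = 0 := by
    have : L y = x * y - y * x := rfl
    rw [← this]
    exact (Submodule.mem_bot ℂ).1 h3
  exact sub_eq_zero.1 h4

/-- An algebra embedded onto `FF 1` is of type I. -/
theorem typeI_of {G : Fib Q B} (hG : G.Comm) (g : Q) {e : ℤ → ℤ → B →ₗ[ℂ] E} (he : MatSys e)
    {U : Type} [NonUnitalCStarAlgebra U] (κ : U →⋆ₙₐ[ℂ] E) (hκ : Function.Injective κ)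
    (hr : Set.range κ = (FF G g e 1 : Set E)) : IsTypeI U := by
  intro A' _ π hπ hA'
  have hiso : Isometry κ := NonUnitalStarAlgHom.isometry κ hκ
  -- some generator has nonzero image
  obtain ⟨w, i, j, b, hb, hw, hπw⟩ : ∃ (w : U) (i j : ℤ) (b : B),
      b ∈ G.fib (g ^ i * 1 * g ^ (-j)) ∧ κ w = e i j b ∧ π w ≠ 0 := by
    by_contra hcon
    push Not at hcon
    -- then `π` vanishes
    have hK : ∀ x : U, π x = 0 := by
      let L : U →ₗ[ℂ] A' := { toFun := π, map_add' := map_add π, map_smul' := map_smul π }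
      let Lκ : U →ₗ[ℂ] E := { toFun := κ, map_add' := map_add κ, map_smul' := map_smul κ }
      have hπc : Continuous π :=
        AddMonoidHomClass.continuous_of_bound π 1 fun a => by
          rw [one_mul]; exact NonUnitalStarAlgHom.norm_apply_le π a
      have hker : IsClosed ((LinearMap.ker L : Submodule ℂ U) : Set U) := by
        have : ((LinearMap.ker L : Submodule ℂ U) : Set U) = π ⁻¹' {0} := by
          ext x; rfl
        rw [this]
        exact isClosed_singleton.preimage hπc
      intro x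
      have h1 : (Submodule.span ℂ (SS G g e 1)) ≤ (LinearMap.ker L).map Lκ := by
        rw [Submodule.span_le]
        rintro y ⟨i, j, b, hb, rfl⟩
        have h2 : e i j b ∈ Set.range κ := by
          rw [hr]; exact mem_FF ⟨i, j, b, hb, rfl⟩
        obtain ⟨z, hz⟩ := h2
        exact ⟨z, hcon z i j b hb hz, hz⟩
      have h3 : κ x ∈ closure (κ '' ((LinearMap.ker L : Submodule ℂ U) : Set U)) := by
        have h4 : κ x ∈ (FF G g e 1 : Set E) := by rw [← hr]; exact Set.mem_range_self x
        have h5 : ((Submodule.span ℂ (SS G g e 1) : Submodule ℂ E) : Set E)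
            ⊆ κ '' ((LinearMap.ker L : Submodule ℂ U) : Set U) := h1
        exact closure_mono h5 h4
      have h6 : x ∈ closure ((LinearMap.ker L : Submodule ℂ U) : Set U) := by
        rw [hiso.isUniformInducing.isInducing.closure_eq_preimage_closure_image]
        exact h3
      rw [hker.closure_eq] at h6
      exact h6
    obtain ⟨a, ha⟩ := exists_ne (0 : A')
    obtain ⟨x, rfl⟩ := hπ a
    exact ha (hK x)
  refine ⟨π (w * star w), ?_, ?_, ?_⟩
  · exact (IsSelfAdjoint.mul_star_self w).map π
  · rw [map_mul, map_star]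
    exact CStarRing.mul_star_self_ne_zero_iff _ |>.2 hπw
  · intro x' y'
    obtain ⟨x, rfl⟩ := hπ x'
    obtain ⟨y, rfl⟩ := hπ y'
    have hc : b * star b ∈ G.fib 1 := by
      have := G.mul_mem _ _ _ _ hb (G.star_mem _ b hb)
      simpa using this
    have hκw : κ (w * star w) = e i i (b * star b) := by
      rw [map_mul, map_star, hw, he.star, he.mul]
    have hmem : ∀ z : U, κ (w * star w * z * (w * star w)) ∈
        (Submodule.span ℂ {x | ∃ d ∈ G.fib 1, x = e i i d}).topologicalClosure := by
      intro z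
      rw [map_mul, map_mul, hκw]
      apply corner_mem g he i hc
      have : κ z ∈ (FF G g e 1 : Set E) := by rw [← hr]; exact Set.mem_range_self z
      exact this
    have h1 := corner_comm hG he i _ (hmem x) _ (hmem y)
    rw [← map_mul, ← map_mul] at h1
    have h2 := hκ h1
    have h3 := congrArg π h2
    simpa only [map_mul] using h3

end

theorem mat : S_MAT := by
  intro Q _ B E _ _ G f hf hG e he
  obtain ⟨g, hg⟩ := hf (Multiplicative.ofAdd (1 : ℤ))
  have hgz : ∀ i : ℤ, f (g ^ i) = Multiplicative.ofAdd i := by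
    intro i
    rw [map_zpow, hg, ← ofAdd_zsmul]
    simp
  set S : Set E := {x | ∃ (i j : ℤ) (q : Q), f q = Multiplicative.ofAdd (i - j) ∧
    ∃ b ∈ G.fib q, x = e i j b} with hS
  have hSspan : ASpan G f e = Submodule.span ℂ S := rfl
  have hcl : IsClosed ((ASpan G f e).topologicalClosure : Set E) :=
    Submodule.isClosed_topologicalClosure _
  have hmul : ∀ x ∈ (ASpan G f e).topologicalClosure, ∀ y ∈ (ASpan G f e).topologicalClosure,
      x * y ∈ (ASpan G f e).topologicalClosure := by
    apply closure_mul_mem _ _ _ hcl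
    rintro x ⟨i, j, q, hq, b, hb, rfl⟩ y ⟨k, l, q', hq', c, hc, rfl⟩
    by_cases hjk : j = k
    · subst hjk
      rw [he.mul]
      apply Submodule.le_topologicalClosure _ (Submodule.subset_span _)
      refine ⟨i, l, q * q', ?_, b * c, G.mul_mem _ _ _ _ hb hc, rfl⟩
      rw [map_mul, hq, hq', ← ofAdd_add]
      congr 1; ring
    · rw [he.mul0 _ _ _ _ _ _ hjk]
      exact Submodule.zero_mem _
  have hstar : ∀ x ∈ (ASpan G f e).topologicalClosure,
      star x ∈ (ASpan G f e).topologicalClosure := by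
    apply closure_star_mem
    rintro x ⟨i, j, q, hq, b, hb, rfl⟩
    rw [he.star]
    refine ⟨j, i, q⁻¹, ?_, star b, G.star_mem _ b hb, rfl⟩
    rw [map_inv, hq, ← ofAdd_neg]
    congr 1; ring
  obtain ⟨A, _, κ, hκ, hr⟩ := exists_alg _ hcl hmul hstar
  refine ⟨A, inferInstance, κ, hκ, hr, ?_⟩
  have hiso : Isometry κ := NonUnitalStarAlgHom.isometry κ hκ
  have hκc : Continuous κ := hiso.continuous
  let L : A →ₗ[ℂ] E := { toFun := κ, map_add' := map_add κ, map_smul' := map_smul κ }
  -- generators of the fibres are generators of the span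
  have hgen : ∀ s : f.ker, SS G g e (s : Q) ⊆ S := by
    rintro s x ⟨i, j, b, hb, rfl⟩
    refine ⟨i, j, _, ?_, b, hb, rfl⟩
    rw [map_mul, map_mul, hgz, hgz, (MonoidHom.mem_ker).1 s.2, mul_one, ← ofAdd_add]
    rfl
  have hFle : ∀ s : f.ker, FF G g e (s : Q) ≤ (ASpan G f e).topologicalClosure := by
    intro s
    apply Submodule.topologicalClosure_mono
    exact Submodule.span_mono (hgen s)
  let G' : Fib f.ker A :=
    { fib := fun s => (FF G g e (s : Q)).comap L
      closed := fun s => (FF_closed G g e (s : Q)).preimage hκc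
      mul_mem := by
        intro p q x y hx hy
        show κ (x * y) ∈ FF G g e ((p * q : f.ker) : Q)
        rw [map_mul]
        exact FF_mul g he _ _ _ hx _ hy
      star_mem := by
        intro q x hx
        show κ (star x) ∈ FF G g e ((q⁻¹ : f.ker) : Q)
        rw [map_star]
        exact FF_star g he _ _ hx
      dense := by
        rw [eq_top_iff]
        intro x _
        set W : Submodule ℂ A := ⨆ s : f.ker, (FF G g e (s : Q)).comap L with hW
        have h1 : Submodule.span ℂ S ≤ W.map L := by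
          rw [Submodule.span_le]
          rintro y ⟨i, j, q, hq, b, hb, rfl⟩
          have h2 : e i j b ∈ Set.range κ := by
            rw [hr]
            exact Submodule.le_topologicalClosure _
              (Submodule.subset_span ⟨i, j, q, hq, b, hb, rfl⟩)
          obtain ⟨z, hz⟩ := h2
          have hker : g ^ (-i) * q * g ^ j ∈ f.ker := by
            rw [MonoidHom.mem_ker, map_mul, map_mul, hgz, hgz, hq, ← ofAdd_add, ← ofAdd_add]
            rw [show -i + (i - j) + j = 0 by ring]
            rfl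
          refine ⟨z, ?_, hz⟩
          refine (le_iSup (fun s : f.ker => (FF G g e (s : Q)).comap L) ⟨_, hker⟩) ?_
          show κ z ∈ FF G g e (g ^ (-i) * q * g ^ j)
          rw [hz]
          apply mem_FF
          refine ⟨i, j, b, ?_, rfl⟩
          have e1 : g ^ i * (g ^ (-i) * q * g ^ j) * g ^ (-j) = q := by group
          rw [e1]
          exact hb
        have h3 : κ x ∈ closure (κ '' (W : Set A)) := by
          have h4 : κ x ∈ ((ASpan G f e).topologicalClosure : Set E) := by
            rw [← hr]; exact Set.mem_range_self x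
          have h5 : (Submodule.span ℂ S : Set E) ⊆ κ '' (W : Set A) := h1
          exact closure_mono h5 h4
        have h6 : x ∈ closure (W : Set A) := by
          rw [hiso.isUniformInducing.isInducing.closure_eq_preimage_closure_image]
          exact h3
        exact h6 }
  -- the unit fibre
  obtain ⟨U, _, ι, hι, hιr⟩ := exists_alg (G'.fib 1) (G'.closed 1)
    (fun x hx y hy => by simpa using G'.mul_mem 1 1 x y hx hy)
    (fun x hx => by simpa using G'.star_mem 1 x hx)
  refine ⟨G', U, inferInstance, ?_, ι, hιr⟩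
  apply typeI_of hG g he (κ.comp ι) (hκ.comp hι)
  ext x
  constructor
  · rintro ⟨u, rfl⟩
    have h1 : ι u ∈ (G'.fib 1 : Set A) := by rw [← hιr]; exact Set.mem_range_self u
    exact h1
  · intro hx
    have h1 : x ∈ ((ASpan G f e).topologicalClosure : Set E) := hFle 1 hx
    rw [← hr] at h1
    obtain ⟨z, rfl⟩ := h1
    have h2 : z ∈ (G'.fib 1 : Set A) := hx
    rw [← hιr] at h2
    obtain ⟨u, rfl⟩ := h2
    exact ⟨u, rfl⟩

end Pool.Agent.Helper41.Uct2
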